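import Pool.Agent.Q240.KS.Stm2

/-!
# Project KS (helper240): jobs FIN1, FIN2
-/

set_option autoImplicit false

namespace Pool.Agent.Q241.KS

open Finset Pool.Agent.Q240.KS Pool.Agent.W76.MO

theorem log_bds {i : ℕ} {y : ℝ} (h1 : (2 : ℝ) ^ i ≤ y) (h2 : y ≤ (2 : ℝ) ^ (i + 1)) :
    0 < y ∧ |Real.log y - ((i : ℝ) + 1 / 2) * Real.log 2| ≤ 2 / 5 := by
  have h0 : (0 : ℝ) < 2 ^ i := by positivity
  have hy : 0 < y := by linarith
  have h3 := Real.log_le_log h0 h1
  have h4 := Real.log_le_log hy h2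
  rw [Real.log_pow] at h3 h4
  push_cast at h4
  have h5 := Real.log_two_lt_d9
  refine ⟨hy, ?_⟩
  rw [abs_le]
  constructor <;> nlinarith

theorem two_rpow (x : ℝ) : (2 : ℝ) ^ x = Real.exp (x * Real.log 2) := by
  rw [Real.rpow_def_of_pos (by norm_num), mul_comm]

theorem YleI {i : ℕ} (hi : 2 ≤ i) : 0 < ((i : ℝ) + 1 / 2) * Real.log 2 ∧
    ((i : ℝ) + 1 / 2) * Real.log 2 ≤ i := by
  have h1 := Real.log_two_lt_d9
  have h2 := Real.log_two_gt_d9
  have h3 : (2 : ℝ) ≤ i := by exact_mod_cast hi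
  constructor
  · positivity
  · nlinarith

theorem fin1 : S_FIN1 := by
  rintro ⟨c, η₀, Y₀, hc, hη₀, hM⟩
  set η : ℝ := min η₀ (1 / 10) with hη
  have hη0 : 0 < η := lt_min hη₀ (by norm_num)
  have hη1 : η ≤ η₀ := min_le_left _ _
  have hη2 : η ≤ 1 / 10 := min_le_right _ _
  refine ⟨c, η / 2, η / 2, hc, by positivity, by positivity, ?_⟩
  intro δ hδ0 hδ
  refine ⟨⌈max (|Y₀| * 2) (4 / η)⌉₊ + 2, ?_⟩
  intro i hi
  have hi2 : 2 ≤ i := by omega
  have hi' : max (|Y₀| * 2) (4 / η) ≤ i := by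
    have h1 : (⌈max (|Y₀| * 2) (4 / η)⌉₊ : ℝ) ≤ i := by
      exact_mod_cast (by omega : ⌈max (|Y₀| * 2) (4 / η)⌉₊ ≤ i)
    exact (Nat.le_ceil _).trans h1
  have hiY : |Y₀| * 2 ≤ i := (le_max_left _ _).trans hi'
  have hiη : 4 / η ≤ i := (le_max_right _ _).trans hi'
  rw [div_le_iff₀ hη0] at hiη
  have hir : (2 : ℝ) ≤ i := by exact_mod_cast hi2
  obtain ⟨hY0, hYi⟩ := YleI hi2
  have hl1 := Real.log_two_lt_d9
  have hl2 := Real.log_two_gt_d9
  set Y : ℝ := ((i : ℝ) + 1 / 2) * Real.log 2 with hY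
  have hYY : Y₀ ≤ Y := by
    have := le_abs_self Y₀
    rw [hY]
    nlinarith
  set h : ℕ := hh δ i with hh'
  have hhpos : 0 < h := by
    rw [hh', hh]
    positivity
  have hhp : (0 : ℝ) < h := by exact_mod_cast hhpos
  have hhv : (h : ℝ) = Real.exp ((⌊(1 / 2 - δ) * i⌋₊ : ℝ) * Real.log 2) := by
    rw [hh', hh, ← two_rpow]
    push_cast
    rw [Real.rpow_natCast]
  have hδ2 : δ ≤ 1 / 20 := by linarith
  have hfl1 : (⌊(1 / 2 - δ) * i⌋₊ : ℝ) ≤ (1 / 2 - δ) * i := Nat.floor_le (by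
    have : 0 ≤ 1 / 2 - δ := by linarith
    positivity)
  have hfl2 : (1 / 2 - δ) * i - 1 < (⌊(1 / 2 - δ) * i⌋₊ : ℝ) := Nat.sub_one_lt_floor _
  have hlow : Real.exp ((1 - 1 / 2 - η₀) * Y) ≤ h := by
    rw [hhv, Real.exp_le_exp]
    have h1 : (1 - 1 / 2 - η₀) * Y ≤ (1 / 2 - η) * Y := by
      refine mul_le_mul_of_nonneg_right ?_ hY0.le
      linarith
    refine h1.trans ?_
    rw [hY, ← mul_assoc]
    refine mul_le_mul_of_nonneg_right ?_ (by linarith)
    nlinarith
  have hup : (h : ℝ) ≤ Real.exp (0.9 * Y) := by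
    rw [hhv, Real.exp_le_exp, hY, ← mul_assoc]
    refine mul_le_mul_of_nonneg_right ?_ (by linarith)
    nlinarith
  set bad : Finset ℕ := (range (nc δ i)).filter (fun k =>
    (((cell δ i k).filter Nat.Prime).card : ℝ) < c * hh δ i / i) with hbad
  set pt : ℕ → ℝ := fun k => ((2 ^ i + k * h : ℕ) : ℝ) with hpt
  have hinj : Function.Injective pt := by
    intro a b hab
    have h1 : (2 ^ i + a * h : ℕ) = 2 ^ i + b * h := Nat.cast_injective (R := ℝ) hab
    have h2 : a * h = b * h := by omega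
    exact Nat.eq_of_mul_eq_mul_right hhpos h2
  have hcard := hM Y hYY h hlow hup (bad.image pt) (by
    intro y hy
    obtain ⟨k, hk, rfl⟩ := mem_image.1 hy
    rw [hbad, mem_filter, mem_range] at hk
    obtain ⟨hk1, hk2⟩ := hk
    have h1 : (2 : ℝ) ^ i ≤ pt k := by
      rw [hpt]
      push_cast
      have : (0 : ℝ) ≤ k * h := by positivity
      linarith
    have h2 : pt k ≤ (2 : ℝ) ^ (i + 1) := by
      have h3 : k * h ≤ 2 ^ i := by
        have h4 : nc δ i * h ≤ 2 ^ i := by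
          rw [nc, ← hh']
          exact Nat.div_mul_le_self _ _
        exact (Nat.mul_le_mul_right h hk1.le).trans h4
      have h5 : 2 ^ i + k * h ≤ 2 ^ (i + 1) := by
        rw [pow_succ]
        omega
      rw [hpt]
      have h6 : ((2 ^ i + k * h : ℕ) : ℝ) ≤ ((2 ^ (i + 1) : ℕ) : ℝ) := by exact_mod_cast h5
      refine h6.trans ?_
      push_cast
      exact le_refl _
    obtain ⟨hy0, hyl⟩ := log_bds h1 h2
    refine ⟨hy0, hyl, ?_⟩
    have h3 : pic (pt k) h = ((cell δ i k).filter Nat.Prime).card := by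
      have e1 : ⌊pt k⌋₊ = 2 ^ i + k * h := by
        rw [hpt]
        exact Nat.floor_natCast _
      have e2 : ⌊pt k + h⌋₊ = 2 ^ i + (k + 1) * h := by
        have : pt k + h = ((2 ^ i + (k + 1) * h : ℕ) : ℝ) := by
          rw [hpt]
          push_cast
          ring
        rw [this]
        exact Nat.floor_natCast _
      rw [pic, e1, e2, cell, ← hh']
    rw [h3]
    refine hk2.trans_le ?_
    rw [← hh']
    exact div_le_div_of_nonneg_left (by positivity) hY0 hYi) (by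
    intro y hy y' hy' hne
    obtain ⟨k, -, rfl⟩ := mem_image.1 hy
    obtain ⟨k', -, rfl⟩ := mem_image.1 hy'
    have hkk : k ≠ k' := fun h => hne (by rw [h])
    have h1 : pt k - pt k' = ((k : ℝ) - k') * h := by
      rw [hpt]
      push_cast
      ring
    rw [h1, abs_mul, abs_of_pos hhp]
    have h2 : (1 : ℝ) ≤ |(k : ℝ) - k'| := by
      have h3 : ((k : ℤ) - k') ≠ 0 := by
        intro h4
        apply hkk
        omega
      have h4 := Int.one_le_abs h3
      have h5 : ((|((k : ℤ) - k')| : ℤ) : ℝ) = |(k : ℝ) - k'| := by push_cast; rfl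
      rw [← h5]
      exact_mod_cast h4
    nlinarith)
  rw [card_image_of_injective _ hinj] at hcard
  refine hcard.trans ?_
  rw [two_rpow, Real.exp_le_exp]
  have h1 : (3 / 8 - η₀) * Y ≤ (3 / 8 - η) * Y := by
    refine mul_le_mul_of_nonneg_right ?_ hY0.le
    linarith
  refine h1.trans ?_
  rw [hY, ← mul_assoc]
  refine mul_le_mul_of_nonneg_right ?_ (by linarith)
  nlinarith

/-- separated points in an interval -/
theorem sep_card {U : Finset ℝ} {a b L : ℝ} (hL : 0 < L) (h1 : ∀ y ∈ U, a ≤ y ∧ y ≤ b)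
    (h2 : ∀ y ∈ U, ∀ y' ∈ U, y ≠ y' → L ≤ |y - y'|) (hab : a ≤ b) :
    (U.card : ℝ) ≤ (b - a) / L + 1 := by
  have h3 : U.card ≤ (range (⌊(b - a) / L⌋₊ + 1)).card := by
    refine card_le_card_of_injOn (fun y => ⌊(y - a) / L⌋₊) ?_ ?_
    · intro y hy
      have hy' := h1 y (by simpa using hy)
      simp only [coe_range, Set.mem_Iio]
      refine Nat.lt_succ_of_le (Nat.floor_le_floor ?_)
      exact div_le_div_of_nonneg_right (by linarith) hL.le
    · intro y hy y' hy' he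
      by_contra hne
      have hyU : y ∈ U := by simpa using hy
      have hyU' : y' ∈ U := by simpa using hy'
      have h4 := h2 y hyU y' hyU' hne
      have p1 : 0 ≤ (y - a) / L := div_nonneg (by linarith [(h1 y hyU).1]) hL.le
      have p2 : 0 ≤ (y' - a) / L := div_nonneg (by linarith [(h1 y' hyU').1]) hL.le
      have q1 := Nat.floor_le p1
      have q2 := Nat.floor_le p2
      have q3 := Nat.lt_floor_add_one ((y - a) / L)
      have q4 := Nat.lt_floor_add_one ((y' - a) / L)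
      have he' : ⌊(y - a) / L⌋₊ = ⌊(y' - a) / L⌋₊ := he
      rw [he'] at q1 q3
      have h5 : |(y - a) / L - (y' - a) / L| < 1 := by
        rw [abs_lt]
        constructor <;> linarith
      have h6 : (y - a) / L - (y' - a) / L = (y - y') / L := by ring
      rw [h6, abs_div, abs_of_pos hL, div_lt_one hL] at h5
      linarith
  rw [card_range] at h3
  have h4 : (U.card : ℝ) ≤ (⌊(b - a) / L⌋₊ : ℝ) + 1 := by exact_mod_cast h3
  have h5 := Nat.floor_le (div_nonneg (sub_nonneg.2 hab) hL.le)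
  linarith

theorem fin2 : S_FIN2 := by
  rintro ⟨c, η₀, Y₀, hc, hη₀, hM⟩
  set η : ℝ := min η₀ (1 / 10) with hη
  have hη0 : 0 < η := lt_min hη₀ (by norm_num)
  have hη1 : η ≤ η₀ := min_le_left _ _
  have hη2 : η ≤ 1 / 10 := min_le_right _ _
  refine ⟨c, η / 2, η / 2, hc, by positivity, by positivity, ?_⟩
  refine ⟨⌈max (|Y₀| * 2) (4 / η)⌉₊ + 20, ?_⟩
  intro i hi L hL U hU hsep
  have hi2 : 2 ≤ i := by omega
  have hi20 : (20 : ℝ) ≤ i := by exact_mod_cast (by omega : 20 ≤ i)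
  have hi' : max (|Y₀| * 2) (4 / η) ≤ i := by
    have h1 : (⌈max (|Y₀| * 2) (4 / η)⌉₊ : ℝ) ≤ i := by
      exact_mod_cast (by omega : ⌈max (|Y₀| * 2) (4 / η)⌉₊ ≤ i)
    exact (Nat.le_ceil _).trans h1
  have hiY : |Y₀| * 2 ≤ i := (le_max_left _ _).trans hi'
  have hiη : 4 / η ≤ i := (le_max_right _ _).trans hi'
  rw [div_le_iff₀ hη0] at hiη
  obtain ⟨hY0, hYi⟩ := YleI hi2
  have hl1 := Real.log_two_lt_d9
  have hl2 := Real.log_two_gt_d9
  set Y : ℝ := ((i : ℝ) + 1 / 2) * Real.log 2 with hY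
  have hYY : Y₀ ≤ Y := by
    have := le_abs_self Y₀
    rw [hY]
    nlinarith
  have hL0 : 0 < L := lt_of_lt_of_le (by positivity) hL
  rcases le_or_gt L (Real.exp (0.9 * Y)) with hc' | hc'
  · have hlow : Real.exp ((1 - 2 / 3 - η₀) * Y) ≤ L := by
      refine le_trans ?_ hL
      rw [two_rpow, Real.exp_le_exp]
      have h1 : (1 - 2 / 3 - η₀) * Y ≤ (1 / 3 - η) * Y := by
        refine mul_le_mul_of_nonneg_right ?_ hY0.le
        linarith
      refine h1.trans ?_
      rw [hY, ← mul_assoc]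
      refine mul_le_mul_of_nonneg_right ?_ (by linarith)
      nlinarith
    have hcard := hM Y hYY L hlow hc' U (by
      intro y hy
      obtain ⟨h1, h2, h3⟩ := hU y hy
      obtain ⟨hy0, hyl⟩ := log_bds h1 h2
      refine ⟨hy0, hyl, h3.trans_le ?_⟩
      exact div_le_div_of_nonneg_left (by positivity) hY0 hYi) hsep
    refine hcard.trans ?_
    rw [two_rpow, Real.exp_le_exp]
    have h1 : (2 / 3 - η₀) * Y ≤ (2 / 3 - η) * Y := by
      refine mul_le_mul_of_nonneg_right ?_ hY0.le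
      linarith
    refine h1.trans ?_
    rw [hY, ← mul_assoc]
    refine mul_le_mul_of_nonneg_right ?_ (by linarith)
    nlinarith
  · have h1 := sep_card hL0 (fun y hy => ⟨(hU y hy).1, (hU y hy).2.1⟩) hsep
      (pow_le_pow_right₀ (by norm_num : (1 : ℝ) ≤ 2) (Nat.le_succ i))
    have h2 : (2 : ℝ) ^ (i + 1) - 2 ^ i = 2 ^ i := by
      rw [pow_succ]
      ring
    rw [h2] at h1
    have h3 : (2 : ℝ) ^ ((9 / 10 : ℝ) * i) ≤ L := by
      rw [two_rpow]
      refine le_trans ?_ hc'.le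
      rw [Real.exp_le_exp, hY, ← mul_assoc]
      refine mul_le_mul_of_nonneg_right ?_ (by linarith)
      norm_num
    have h4 : (2 : ℝ) ^ i / L ≤ (2 : ℝ) ^ ((1 / 10 : ℝ) * i) := by
      rw [div_le_iff₀ hL0]
      calc (2 : ℝ) ^ i = (2 : ℝ) ^ ((1 / 10 : ℝ) * i) * (2 : ℝ) ^ ((9 / 10 : ℝ) * i) := by
            rw [← Real.rpow_add (by norm_num), ← Real.rpow_natCast]
            congr 1
            ring
        _ ≤ _ := by gcongr
    have h5 : (1 : ℝ) ≤ (2 : ℝ) ^ ((1 / 10 : ℝ) * i) := Real.one_le_rpow (by norm_num) (by positivity)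
    calc (U.card : ℝ) ≤ (2 : ℝ) ^ i / L + 1 := h1
      _ ≤ 2 * (2 : ℝ) ^ ((1 / 10 : ℝ) * i) := by linarith
      _ = (2 : ℝ) ^ (1 + (1 / 10 : ℝ) * i) := by
          rw [Real.rpow_add (by norm_num), Real.rpow_one]
      _ ≤ (2 : ℝ) ^ ((2 / 3 - η / 2) * i) := by
          refine Real.rpow_le_rpow_of_exponent_le (by norm_num) ?_
          nlinarith

end Pool.Agent.Q241.KS
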